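import Pool.Agent.Q43.GH.Pcs
import Pool.Agent.Q43.FS.Ld
import Pool.Agent.Q43.RP.Dh
import Pool.Agent.Y447.CL.Small

/-!
# The pieces of the homology: one Frobenius element, or a specialization of CM type
-/

set_option autoImplicit false
set_option linter.unusedSectionVars false

namespace Pool.Agent.Q43.GH

open Matrix Module TensorProduct NumberField Pool.Agent.W437.HC Pool.Agent.W437.HD
  Pool.Agent.H204R3.GP Pool.Agent.H204R3.CM Pool.Agent.TH170.LV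
  Pool.Agent.W516.MTD Pool.Agent.W516.FT Pool.Agent.Q43.HL Pool.Agent.Q43.FS

noncomputable section

variable {g : ℕ} {Z : Matrix (Fin g) (Fin g) ℂ}

/-- One Frobenius element of small defect. -/
theorem hasPcs_of_frob (hZ : Zᵀ = Z) (hpos : (imM Z).PosDef) (hr : RealC (perOne Z))
    {I : Type} [Fintype I] (K : I → Type) [∀ i, Field (K i)] [∀ i, NumberField (K i)]
    [∀ i, IsCMField (K i)] {q : ℕ} (hq : 0 < q) (π : ∀ i, K i)
    (hweil : ∀ i, ∀ φ : K i →+* ℂ, ‖φ (π i)‖ ^ 2 = (q : ℝ)) (ℓ : ℕ) [Fact ℓ.Prime]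
    {Γ : Type} [Group Γ] (ρ : Representation ℚ_[ℓ] Γ (ℚ_[ℓ] ⊗[ℚ] (Fin g ⊕ Fin g → ℚ)))
    (χ : Γ →* ℚ_[ℓ]) (hD : Deligne (perOne Z) ρ χ) (γ : Γ) (hχ : χ γ = q)
    (hγ : (ρ γ).charpoly = (∏ i, minpoly ℚ (π i)).map (algebraMap ℚ ℚ_[ℓ]))
    (hdef : ∀ i, 8 * defectAt K π i < finrank ℚ (K i)) :
    Pool.Agent.W437.HR.HasPcs (DZ Z) := by
  classical
  have hY : IsUnit (imM Z).det := hpos.isUnit.map Matrix.detMonoidHom
  obtain ⟨j⟩ := Pool.Agent.Y447.CL.emb ℓ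
  have hq' : (0 : ℚ) < (q : ℚ) := Nat.cast_pos.2 hq
  have hweil' : ∀ i, ∀ φ : K i →+* ℂ, ‖φ (π i)‖ ^ 2 = (((q : ℚ) : ℝ)) := by
    intro i φ
    rw [hweil]
    norm_cast
  have hsf := shortFree_local K hq' π hweil' (k := 4) (fun i => by
    have h1 := hdef i
    omega)
  obtain ⟨e, N, γ₀, hN, hs, -⟩ := exists_frob K (b0 g) (b1 hY) j hq' π hweil' hsf (b1_apply hY)
    hD γ (by rw [hχ]; norm_cast) hγ
  exact hasPcs_of_sp hZ hpos hY hr e hs

/-- A specialization of CM type with only trivial relations of length four. -/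
theorem hasPcs_of_cm (hZ : Zᵀ = Z) (hpos : (imM Z).PosDef) (hr : RealC (perOne Z))
    {ι : Type} [Fintype ι] {E : ι → Type} [∀ i, Field (E i)] [∀ i, NumberField (E i)]
    [∀ i, IsCMField (E i)] (Φ : ∀ i, Set (E i →+* ℂ)) (hΦ : ∀ i, IsCMType (Φ i))
    (hlf : LevelFree Φ 4 0) (u : (Fin g ⊕ Fin g → ℚ) ≃ₗ[ℚ] (∀ i, E i))
    (hsp : ∀ (m : ℕ) (ψ : MultilinearMap ℚ (fun _ : Fin m × Fin 2 => (Fin g ⊕ Fin g → ℚ)) ℚ),
      IsHodgeTensor (perOne Z) ψ →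
        IsHodgeTensor (perS u Φ) ψ) :
    Pool.Agent.W437.HR.HasPcs (DZ Z) := by
  classical
  have hY : IsUnit (imM Z).det := hpos.isUnit.map Matrix.detMonoidHom
  obtain ⟨γ, hγ1, hγ2⟩ := exists_special (perOne Z) (b0 g) (b1 hY) (b1_apply hY) u Φ hΦ hsp
  refine hasPcs_of_sp hZ hpos hY hr (eb (b0 g) u) (inv := Pool.Agent.Q43.HL.bar) (a := fun x => (ev Φ x : ℂ))
    (q := (mq Φ : ℂ)) (γ := γ) ?_
  exact
    { inv_inv := bar_bar
      ne := bar_ne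
      eig := hγ2
      q0 := Nat.cast_ne_zero.2 (mq_ne Φ)
      mul := fun x => by rw [← Nat.cast_mul, ev_bar Φ hΦ]
      mlt := hγ1
      four := ev_four Φ hΦ hlf (le_refl 4) }

end

end Pool.Agent.Q43.GH
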