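import Pool.Agent.Q43.GH.Rot
import Pool.Agent.W437.HD.Good
import Pool.Agent.H204R3.GP.TateG

/-!
# A nilpotent matrix which kills all Hodge tensors
-/

set_option autoImplicit false
set_option linter.unusedSectionVars false

namespace Pool.Agent.Q43.GH

open Matrix Module Pool.Agent.W437.HC Pool.Agent.W437.HD Pool.Agent.H204R3.GP

noncomputable section

/-- The derivative of a product of bilinear forms which are killed. -/
theorem deriv_prod {M K : Type*} [CommRing K] {m : ℕ} (σ : Equiv.Perm (Fin m × Fin 2))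
    (B : Fin m → M → M → K) (X : M → M) (hB : ∀ l a b, B l (X a) b + B l a (X b) = 0)
    (y : Fin m × Fin 2 → M) :
    ∑ k, ∏ l, B l (Function.update y k (X (y k)) (σ (l, 0)))
      (Function.update y k (X (y k)) (σ (l, 1))) = 0 := by
  rw [← Equiv.sum_comp σ, Fintype.sum_prod_type]
  refine Finset.sum_eq_zero fun l _ => ?_
  rw [Fin.sum_univ_two]
  have h0 : ∀ (j : Fin 2) (l' : Fin m) (j' : Fin 2), l' ≠ l →
      Function.update y (σ (l, j)) (X (y (σ (l, j)))) (σ (l', j')) = y (σ (l', j')) := by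
    intro j l' j' hl
    rw [Function.update_of_ne]
    intro h
    exact hl (congrArg Prod.fst (σ.injective h))
  have h1 : ∀ (j : Fin 2), ∏ l' ∈ Finset.univ.erase l,
      B l' (Function.update y (σ (l, j)) (X (y (σ (l, j)))) (σ (l', 0)))
        (Function.update y (σ (l, j)) (X (y (σ (l, j)))) (σ (l', 1))) =
      ∏ l' ∈ Finset.univ.erase l, B l' (y (σ (l', 0))) (y (σ (l', 1))) := by
    intro j
    refine Finset.prod_congr rfl fun l' hl' => ?_
    rw [h0 j l' 0 (Finset.ne_of_mem_erase hl'), h0 j l' 1 (Finset.ne_of_mem_erase hl')]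
  have h01 : Function.update y (σ (l, 0)) (X (y (σ (l, 0)))) (σ (l, 1)) = y (σ (l, 1)) := by
    rw [Function.update_of_ne]
    intro h
    have h2 := congrArg Prod.snd (σ.injective h)
    exact one_ne_zero h2
  have h10 : Function.update y (σ (l, 1)) (X (y (σ (l, 1)))) (σ (l, 0)) = y (σ (l, 0)) := by
    rw [Function.update_of_ne]
    intro h
    have h2 := congrArg Prod.snd (σ.injective h)
    exact zero_ne_one h2
  rw [← Finset.mul_prod_erase _ _ (Finset.mem_univ l), ← Finset.mul_prod_erase _ _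
    (Finset.mem_univ l), h1, h1, h01, h10, Function.update_self, Function.update_self, ← add_mul,
    hB, zero_mul]

variable {g : ℕ} {Z : Matrix (Fin g) (Fin g) ℂ}

/-- The complexification of a rational bilinear form. -/
def bC (β : (Fin g ⊕ Fin g → ℚ) →ₗ[ℚ] (Fin g ⊕ Fin g → ℚ) →ₗ[ℚ] ℚ) :
    (Fin g ⊕ Fin g → ℂ) →ₗ[ℂ] (Fin g ⊕ Fin g → ℂ) →ₗ[ℂ] ℂ :=
  Matrix.toLinearMap₂' ℂ (Matrix.of fun i j => ((β (Pi.single i 1) (Pi.single j 1) : ℚ) : ℂ))

theorem bC_single (β : (Fin g ⊕ Fin g → ℚ) →ₗ[ℚ] (Fin g ⊕ Fin g → ℚ) →ₗ[ℚ] ℚ)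
    (i j : Fin g ⊕ Fin g) :
    bC β (Pi.single i 1) (Pi.single j 1) = ((β (Pi.single i 1) (Pi.single j 1) : ℚ) : ℂ) := by
  unfold bC
  rw [Matrix.toLinearMap₂'_apply', Matrix.mulVec_single_one, single_one_dotProduct]
  rfl

/-- The coefficients of a rational form. -/
def cfs {κ : Type} (ψ : MultilinearMap ℚ (fun _ : κ => (Fin g ⊕ Fin g → ℚ)) ℚ) :
    (κ → Fin g ⊕ Fin g) → ℚ := fun I => ψ (fun k => Pi.single (I k) 1)

theorem cfs_evalM {κ : Type} [Fintype κ] [DecidableEq κ] (c : (κ → Fin g ⊕ Fin g) → ℚ) :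
    cfs (evalM c) = c := by
  funext I
  change evalF c (fun k => Pi.single (I k) 1) = c I
  rw [evalF_single]

theorem eval_prod {m : ℕ} (σ : Equiv.Perm (Fin m × Fin 2))
    (B : Fin m → ((Fin g ⊕ Fin g → ℚ) →ₗ[ℚ] (Fin g ⊕ Fin g → ℚ) →ₗ[ℚ] ℚ))
    {ψ : MultilinearMap ℚ (fun _ : Fin m × Fin 2 => (Fin g ⊕ Fin g → ℚ)) ℚ}
    (hψ : ∀ v, ψ v = ∏ l, B l (v (σ (l, 0))) (v (σ (l, 1))))
    (y : Fin m × Fin 2 → Fin g ⊕ Fin g → ℂ) :
    evalF (cst ℂ (cfs ψ)) y = ∏ l, bC (B l) (y (σ (l, 0))) (y (σ (l, 1))) := by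
  have h1 : evalM (cst ℂ (cfs ψ)) = mmG σ (fun l => bC (B l)) := by
    refine Basis.ext_multilinear (fun _ => Pi.basisFun ℂ (Fin g ⊕ Fin g)) fun I => ?_
    simp only [Pi.basisFun_apply]
    rw [evalM_apply, evalF_single, mmG_apply]
    simp only [bC_single]
    unfold cst cfs
    rw [hψ, Rat.cast_prod]
  exact congrArg (fun F => F y) h1

/-- **A nilpotent matrix kills all Hodge tensors.** -/
theorem kill_of (hY : IsUnit (imM Z).det)
    (hT : ∀ (m : ℕ) (ψ : MultilinearMap ℚ (fun _ : Fin m × Fin 2 => (Fin g ⊕ Fin g → ℚ)) ℚ),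
      IsHodgeTensor (perOne Z) ψ → ψ ∈ Submodule.span ℚ
        {ψ : MultilinearMap ℚ (fun _ : Fin m × Fin 2 => (Fin g ⊕ Fin g → ℚ)) ℚ |
          IsProductOfHodgeBilinear (perOne Z) ψ})
    (v : Fin g ⊕ Fin g → ℂ)
    (hv : ∀ β, IsHodgeBilinear (perOne Z) β → ∃ c : ℂ, ∀ y, bC β y v = c * ww (Om g ℂ) y v ∧
      bC β v y = c * ww (Om g ℂ) v y) : SS (Om g ℂ) v v ∈ lieM (DZ Z) ℂ := by
  classical
  have hanti : ∀ a b : Fin g ⊕ Fin g → ℂ, ww (Om g ℂ) a b = - ww (Om g ℂ) b a := by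
    intro a b
    unfold ww
    rw [dotProduct_mulVec, ← mulVec_transpose, Om_transpose, neg_mulVec, neg_dotProduct,
      dotProduct_comm]
  have hprod : ∀ (m : ℕ) (ψ : MultilinearMap ℚ (fun _ : Fin m × Fin 2 => (Fin g ⊕ Fin g → ℚ)) ℚ),
      IsHodgeTensor (perOne Z) ψ → act (SS (Om g ℂ) v v) (cst ℂ (cfs ψ)) = 0 := by
    intro m ψ hψ
    have h1 := hT m ψ hψ
    clear hψ
    induction h1 using Submodule.span_induction with
    | mem ψ h =>
      obtain ⟨σ, B, hB, hpr⟩ := h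
      apply eq_zero_of_evalF
      intro y
      rw [evalF_act]
      simp only [eval_prod σ B hpr]
      refine deriv_prod σ (fun l a b => bC (B l) a b) (fun a => SS (Om g ℂ) v v *ᵥ a)
        (fun l a b => ?_) y
      obtain ⟨c, hc⟩ := hv (B l) (hB l)
      have h2 : ∀ a, SS (Om g ℂ) v v *ᵥ a = (2 * ww (Om g ℂ) v a) • v := by
        intro a
        rw [SS_mulVec, ← add_smul]
        congr 1
        unfold ww
        ring
      simp only [h2, map_smul, LinearMap.smul_apply, smul_eq_mul]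
      rw [(hc b).2, (hc a).1, hanti a v]
      ring
    | zero =>
      have h2 : cst ℂ (cfs (0 : MultilinearMap ℚ (fun _ : Fin m × Fin 2 =>
          (Fin g ⊕ Fin g → ℚ)) ℚ)) = 0 := by
        funext I
        exact Rat.cast_zero
      rw [h2, act_zero_right]
    | add ψ ψ' _ _ h h' =>
      have h2 : cst ℂ (cfs (ψ + ψ')) = cst ℂ (cfs ψ) + cst ℂ (cfs ψ') := by
        funext I
        exact Rat.cast_add _ _
      rw [h2, act_add_right, h, h', add_zero]
    | smul q ψ _ h =>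
      have h2 : cst ℂ (cfs (q • ψ)) = (q : ℂ) • cst ℂ (cfs ψ) := by
        funext I
        exact Rat.cast_mul _ _
      rw [h2, act_smul_right, h, smul_zero]
  intro n c hc
  rcases Nat.even_or_odd n with ⟨m, hm⟩ | hodd
  · have hcard : n = m * 2 := by omega
    let e : Fin n ≃ Fin m × Fin 2 := (finCongr hcard).trans finProdFinEquiv.symm
    have h1 := isH_reindex (DZ Z) e.symm hc
    have h2 := hprod m _ (isHodgeTensor_evalM hY h1)
    rw [cfs_evalM] at h2
    have h3 := act_reindex e (SS (Om g ℂ) v v) (cst ℂ (fun I : Fin m × Fin 2 → Fin g ⊕ Fin g =>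
      c (fun k => I (e.symm.symm k))))
    rw [h2] at h3
    have h4 : (fun I : Fin n → Fin g ⊕ Fin g => cst ℂ (fun I : Fin m × Fin 2 → Fin g ⊕ Fin g =>
      c (fun k => I (e.symm.symm k))) (fun k => I (e.symm k))) = cst ℂ c := by
      funext I
      simp [cst]
    rw [h4] at h3
    rw [h3]
    rfl
  · have h1 := isH_odd hY (by rwa [Fintype.card_fin]) hc
    rw [h1]
    have h2 : cst ℂ (0 : (Fin n → Fin g ⊕ Fin g) → ℚ) = 0 := cst_zero
    rw [h2, act_zero_right]

end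

end Pool.Agent.Q43.GH
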