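import Pool.Agent.Q43.GH.Rie
import Pool.Agent.Q43.FS.Mu
import Pool.Agent.W437.HR.Pcs
import Pool.Agent.W437.HD.Crit

/-!
# The pieces of the homology given by an element with few relations between its eigenvalues
-/

set_option autoImplicit false
set_option linter.unusedSectionVars false

namespace Pool.Agent.Q43.GH

open Matrix Module Pool.Agent.W437.HC Pool.Agent.W437.HD Pool.Agent.H204R3.GP
  Pool.Agent.W516.MTD Pool.Agent.Q43.HL Pool.Agent.Q43.FS

noncomputable section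

/-- The eigenvalues of the central endomorphisms are real. -/
def RealC {H T : Type} [AddCommGroup H] [Module ℚ H] [FiniteDimensional ℚ H] [AddCommGroup T]
    [Module ℂ T] (per : H →+ T) : Prop :=
  ∀ P : H →ₗ[ℚ] H, IsHodgeEnd per P →
    (∀ Q : H →ₗ[ℚ] H, IsHodgeEnd per Q → P ∘ₗ Q = Q ∘ₗ P) →
      ∀ z : ℂ, (P.charpoly.map (algebraMap ℚ ℂ)).IsRoot z → z.im = 0

section gen

variable {n : ℕ} {H T : Type} [AddCommGroup H] [Module ℚ H] [AddCommGroup T] [Module ℂ T]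
  (per : H →+ T) (b : Basis (Fin n) ℚ H) (b' : Basis (Fin n) ℝ T) (hb : ∀ i, b' i = per (b i))
  {ω₀ : H →ₗ[ℚ] H →ₗ[ℚ] ℚ} (hR : IsRiemannForm per ω₀)
  {R : Type} [Fintype R] [DecidableEq R] (e : Basis R ℂ (Fin n → ℂ)) {inv : R → R}
  {a : R → ℂ} {q : ℂ} {γ : GG (pj b')} (hs : Sp b' e inv a q γ)

theorem mQ_injective {P Q : H →ₗ[ℚ] H} (h : mQ b P = mQ b Q) : P = Q := by
  refine b.ext fun j => ?_
  apply b.repr.injective
  ext i
  have h1 : mQ b P i j = mQ b Q i j := by rw [h]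
  exact Rat.cast_injective (α := ℂ) h1

include hb hR hs

/-- Hodge endomorphisms commute. -/
theorem end_comm {P Q : H →ₗ[ℚ] H} (hP : IsHodgeEnd per P) (hQ : IsHodgeEnd per Q) :
    P ∘ₗ Q = Q ∘ₗ P := by
  apply mQ_injective b
  rw [mQ_comp, mQ_comp]
  have h1 : (mQ b P * mQ b Q).mulVecLin = (mQ b Q * mQ b P).mulVecLin := by
    refine e.ext fun x => ?_
    rw [mulVecLin_apply, mulVecLin_apply, ← mulVec_mulVec, ← mulVec_mulVec,
      evl_eq per b b' hb hR e hs hP, evl_eq per b b' hb hR e hs hQ, mulVec_smul, mulVec_smul,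
      evl_eq per b b' hb hR e hs hP, evl_eq per b b' hb hR e hs hQ, smul_smul, smul_smul, mul_comm]
  exact Matrix.toLin'.injective h1

/-- The eigenvalues of the endomorphisms are real. -/
theorem evl_real [FiniteDimensional ℚ H] (hr : RealC per) {P : H →ₗ[ℚ] H}
    (hP : IsHodgeEnd per P) (x : R) : evl b e P (inv x) = evl b e P x := by
  have h1 := gr_cc per b b' hb hR e hs x P hP
  rw [h1]
  have h2 : (P.charpoly.map (algebraMap ℚ ℂ)).IsRoot (evl b e P x) := by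
    rw [← mQ_eq_charpoly b, ← Polynomial.rootMultiplicity_pos (Matrix.charpoly_monic _).ne_zero,
      mult_diagE e (fun y => evl_eq per b b' hb hR e hs hP y)]
    exact Finset.card_pos.2 ⟨x, Finset.mem_filter.2 ⟨Finset.mem_univ x, rfl⟩⟩
  have h3 := hr P hP (fun Q hQ => end_comm per b b' hb hR e hs hP hQ) _ h2
  exact Complex.conj_eq_iff_im.2 h3

/-- All Hodge tensors are generated in degree two. -/
theorem real_tensors [FiniteDimensional ℚ H] (hr : RealC per) (m : ℕ)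
    (ψ : MultilinearMap ℚ (fun _ : Fin m × Fin 2 => H) ℚ) (hψ : IsHodgeTensor per ψ) :
    ψ ∈ Submodule.span ℚ {ψ : MultilinearMap ℚ (fun _ : Fin m × Fin 2 => H) ℚ |
      IsProductOfHodgeBilinear per ψ} :=
  tensor_mult per b b' hb hR e hs (fun P hP hc z hz hz' => absurd (hr P hP hc z hz) hz') ψ hψ

/-- Hodge forms and the Riemann form. -/
theorem forms_eig [FiniteDimensional ℚ H] (hr : RealC per) (x : R) {β : H →ₗ[ℚ] H →ₗ[ℚ] ℚ}
    (hβ : IsHodgeBilinear per β) :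
    ∃ c : ℂ, ∀ w : Fin n → ℂ, om b β (e x) w = c * om b ω₀ (e x) w ∧
      om b β w (e x) = - (c * om b ω₀ (e x) w) := by
  obtain ⟨P, hP, rfl⟩ := end_of_hodge per b b' hb hR hβ
  obtain ⟨Q, hQ1, hQ2⟩ := exists_adj per b b' hb hR hP
  refine ⟨evl b e P x, fun w => ⟨?_, ?_⟩⟩
  · rw [om_comp, evl_eq per b b' hb hR e hs hP, map_smul, LinearMap.smul_apply, smul_eq_mul]
  · rw [om_comp, ← hQ2, evl_eq per b b' hb hR e hs hQ1, map_smul, LinearMap.smul_apply,
      smul_eq_mul, evl_adj per b b' hb hR e hs hP hQ1 hQ2, evl_real per b b' hb hR e hs hr hP,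
      neg_mul]

end gen

variable {g : ℕ} {Z : Matrix (Fin g) (Fin g) ℂ}

/-- **The pieces.** -/
theorem hasPcs_of_sp (hZ : Zᵀ = Z) (hpos : (imM Z).PosDef) (hY : IsUnit (imM Z).det)
    (hr : RealC (perOne Z)) {R : Type} [Fintype R] [DecidableEq R]
    (e : Basis R ℂ (Fin (g + g) → ℂ)) {inv : R → R} {a : R → ℂ} {q : ℂ} {γ : GG (pj (b1 hY))}
    (hs : Sp (b1 hY) e inv a q γ) : Pool.Agent.W437.HR.HasPcs (DZ Z) := by
  have hb := b1_apply (Z := Z) hY
  have hR := isRiemann hZ hpos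
  have hanti : ∀ a b : Fin g ⊕ Fin g → ℂ, ww (Om g ℂ) a b = - ww (Om g ℂ) b a := by
    intro a b
    unfold ww
    rw [dotProduct_mulVec, ← mulVec_transpose, Om_transpose, neg_mulVec, neg_dotProduct,
      dotProduct_comm]
  have hkill : ∀ x : R, SS (Om g ℂ) (tau g (e x)) (tau g (e x)) ∈ lieM (DZ Z) ℂ := by
    intro x
    refine kill_of hY (fun m ψ hψ => real_tensors (perOne Z) (b0 g) (b1 hY) hb hR e hs hr m ψ hψ)
      _ fun β hβ => ?_
    obtain ⟨c, hc⟩ := forms_eig (perOne Z) (b0 g) (b1 hY) hb hR e hs hr x hβ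
    refine ⟨-c, fun y => ?_⟩
    obtain ⟨w, rfl⟩ := (tau g).surjective y
    obtain ⟨h1, h2⟩ := hc w
    rw [bC_tau, bC_tau, h1, h2, ← bC_tau, bC_om0]
    constructor
    · ring
    · rw [hanti]
      ring
  have hne : ∀ x : R, tau g (e x) ≠ 0 := fun x h0 =>
    e.ne_zero x ((tau g).map_eq_zero_iff.1 h0)
  refine Pool.Agent.W437.HR.hasPcs_of_top (Om_transpose ℂ) (Om_unit ℂ) (sp_C hZ) ?_
  rw [eq_top_iff]
  have h1 : Submodule.span ℂ (Set.range (fun x => tau g (e x))) = ⊤ := by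
    have h2 := (e.map (tau g)).span_eq
    rw [← h2]
    congr 1
  rw [← h1, Submodule.span_le]
  rintro _ ⟨x, rfl⟩
  have h2 : tau g (e x) ∈ VV (DZ Z) (Om g ℂ) (tau g (e x)) := hkill x
  exact Submodule.mem_iSup_of_mem ⟨tau g (e x), good_of_sq_gen hZ hpos (hne x) (hkill x)⟩ h2

end

end Pool.Agent.Q43.GH
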