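import Pool.Agent.Q43.GH.Kill
import Pool.Agent.Q43.HL.Typ

/-!
# The Riemann form of a period matrix
-/

set_option autoImplicit false
set_option linter.unusedSectionVars false

namespace Pool.Agent.Q43.GH

open Matrix Module Pool.Agent.W437.HC Pool.Agent.W437.HD Pool.Agent.H204R3.GP
  Pool.Agent.W516.MTD Pool.Agent.Q43.HL

noncomputable section

variable {g : ℕ} {Z : Matrix (Fin g) (Fin g) ℂ}

/-- The Riemann form of the principal polarization. -/
def om0 (g : ℕ) : (Fin g ⊕ Fin g → ℚ) →ₗ[ℚ] (Fin g ⊕ Fin g → ℚ) →ₗ[ℚ] ℚ :=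
  LinearMap.mk₂ ℚ (fun u v => v ⬝ᵥ (Om g ℚ *ᵥ u))
    (fun u u' v => by rw [mulVec_add, dotProduct_add])
    (fun c u v => by rw [mulVec_smul, dotProduct_smul])
    (fun u v v' => by rw [add_dotProduct])
    (fun c u v => by rw [smul_dotProduct])

theorem om0_apply (u v : Fin g ⊕ Fin g → ℚ) : om0 g u v = v ⬝ᵥ (Om g ℚ *ᵥ u) := rfl

/-- Its extension to the tangent space. -/
def omT (hY : IsUnit (imM Z).det) : (Fin g → ℂ) →ₗ[ℝ] (Fin g → ℂ) →ₗ[ℝ] ℝ :=
  LinearMap.mk₂ ℝ (fun u v => (perE hY).symm v ⬝ᵥ (Om g ℝ *ᵥ (perE hY).symm u))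
    (fun u u' v => by rw [map_add, mulVec_add, dotProduct_add])
    (fun c u v => by rw [map_smul, mulVec_smul, dotProduct_smul])
    (fun u v v' => by rw [map_add, add_dotProduct])
    (fun c u v => by rw [map_smul, smul_dotProduct])

theorem omT_apply (hY : IsUnit (imM Z).det) (u v : Fin g → ℂ) :
    omT hY u v = (perE hY).symm v ⬝ᵥ (Om g ℝ *ᵥ (perE hY).symm u) := rfl

theorem om_rot (hZ : Zᵀ = Z) (hY : IsUnit (imM Z).det) (θ : ℝ) (x y : Fin g ⊕ Fin g → ℝ) :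
    (Real.cos θ • x + Real.sin θ • (JR Z *ᵥ x)) ⬝ᵥ
      (Om g ℝ *ᵥ (Real.cos θ • y + Real.sin θ • (JR Z *ᵥ y))) = x ⬝ᵥ (Om g ℝ *ᵥ y) := by
  have h1 : (JR Z *ᵥ x) ⬝ᵥ (Om g ℝ *ᵥ y) = - (x ⬝ᵥ (Om g ℝ *ᵥ (JR Z *ᵥ y))) := by
    have h2 : (JR Z *ᵥ x) ⬝ᵥ (Om g ℝ *ᵥ y) = x ⬝ᵥ (((JR Z)ᵀ * Om g ℝ) *ᵥ y) := by
      rw [← mulVec_mulVec, dotProduct_mulVec x, vecMul_transpose]
    have h3 : (JR Z)ᵀ * Om g ℝ = -(Om g ℝ * JR Z) := eq_neg_of_add_eq_zero_left (JR_sp hZ)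
    rw [h2, h3, neg_mulVec, dotProduct_neg, mulVec_mulVec]
  have h4 : (JR Z *ᵥ x) ⬝ᵥ (Om g ℝ *ᵥ (JR Z *ᵥ y)) = x ⬝ᵥ (Om g ℝ *ᵥ y) := by
    have h2 : (JR Z *ᵥ x) ⬝ᵥ (Om g ℝ *ᵥ (JR Z *ᵥ y)) =
        x ⬝ᵥ (((JR Z)ᵀ * Om g ℝ) *ᵥ (JR Z *ᵥ y)) := by
      rw [← mulVec_mulVec, dotProduct_mulVec x, vecMul_transpose]
    have h3 : (JR Z)ᵀ * Om g ℝ = -(Om g ℝ * JR Z) := eq_neg_of_add_eq_zero_left (JR_sp hZ)
    rw [h2, h3, mulVec_mulVec, neg_mul, Matrix.mul_assoc, JR_sq hY, mul_neg, mul_one, neg_neg]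
  simp only [mulVec_add, mulVec_smul, add_dotProduct, dotProduct_add, smul_dotProduct,
    dotProduct_smul, smul_eq_mul]
  rw [h1, h4]
  have h5 := Real.cos_sq_add_sin_sq θ
  linear_combination (x ⬝ᵥ (Om g ℝ *ᵥ y)) * h5

theorem isRiemann (hZ : Zᵀ = Z) (hpos : (imM Z).PosDef) :
    IsRiemannForm (perOne Z) (om0 g) := by
  have hY : IsUnit (imM Z).det := hpos.isUnit.map Matrix.detMonoidHom
  refine ⟨omT hY, fun x y => ?_, fun z hz u v => ?_, fun u => ?_, fun u hu => ?_⟩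
  · rw [omT_apply, om0_apply, perE_symm_perOne, perE_symm_perOne]
    rw [← Om_map ℝ]
    simp only [dotProduct, mulVec, Matrix.map_apply]
    push_cast
    rfl
  · obtain ⟨θ, rfl⟩ := exists_angle z hz
    rw [omT_apply, omT_apply, perE_symm_smul, perE_symm_smul, om_rot hZ hY]
  · rw [omT_apply]
    have h1 : (perE hY).symm u ⬝ᵥ (Om g ℝ *ᵥ (perE hY).symm u) =
        -((perE hY).symm u ⬝ᵥ (Om g ℝ *ᵥ (perE hY).symm u)) := by
      conv_lhs => rw [dotProduct_mulVec, ← mulVec_transpose, Om_transpose, neg_mulVec,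
        neg_dotProduct, dotProduct_comm]
    linarith
  · have h1 : (perE hY).symm (Complex.I • u) = JR Z *ᵥ (perE hY).symm u := by
      have h2 := perE_symm_smul hY (Real.pi / 2) u
      rw [Real.cos_pi_div_two, Real.sin_pi_div_two, zero_smul, one_smul, zero_add] at h2
      have h3 : Complex.cos ((Real.pi / 2 : ℝ) : ℂ) + Complex.sin ((Real.pi / 2 : ℝ) : ℂ) *
          Complex.I = Complex.I := by
        rw [← Complex.ofReal_cos, ← Complex.ofReal_sin, Real.cos_pi_div_two,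
          Real.sin_pi_div_two, Complex.ofReal_zero, Complex.ofReal_one, one_mul, zero_add]
      rw [h3] at h2
      exact h2
    rw [omT_apply, h1, mulVec_mulVec]
    have h2 := (OmJ_posDef hZ hpos).dotProduct_mulVec_pos (x := (perE hY).symm u) (by
      intro h0
      exact hu ((perE hY).symm.map_eq_zero_iff.1 h0))
    rw [star_trivial] at h2
    exact h2

/-- The standard basis of the rational homology. -/
def b0 (g : ℕ) : Basis (Fin (g + g)) ℚ (Fin g ⊕ Fin g → ℚ) :=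
  (Pi.basisFun ℚ (Fin g ⊕ Fin g)).reindex finSumFinEquiv

theorem b0_apply (i : Fin (g + g)) : b0 g i = Pi.single (finSumFinEquiv.symm i) 1 := by
  unfold b0
  rw [Basis.reindex_apply, Pi.basisFun_apply]

/-- The corresponding basis of the tangent space. -/
def b1 (hY : IsUnit (imM Z).det) : Basis (Fin (g + g)) ℝ (Fin g → ℂ) :=
  ((Pi.basisFun ℝ (Fin g ⊕ Fin g)).map (perE hY)).reindex finSumFinEquiv

theorem b1_apply (hY : IsUnit (imM Z).det) (i : Fin (g + g)) :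
    b1 hY i = perOne Z (b0 g i) := by
  unfold b1
  rw [Basis.reindex_apply, Basis.map_apply, Pi.basisFun_apply, b0_apply]
  rw [← LinearEquiv.eq_symm_apply, perE_symm_perOne]
  funext j
  by_cases h : j = finSumFinEquiv.symm i
  · subst h
    rw [Pi.single_eq_same, Pi.single_eq_same, Rat.cast_one]
  · rw [Pi.single_eq_of_ne h, Pi.single_eq_of_ne h, Rat.cast_zero]

/-- Reindexing of complex vectors. -/
def tau (g : ℕ) : (Fin (g + g) → ℂ) ≃ₗ[ℂ] (Fin g ⊕ Fin g → ℂ) :=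
  LinearEquiv.funCongrLeft ℂ ℂ finSumFinEquiv

theorem tau_apply (x : Fin (g + g) → ℂ) (j : Fin g ⊕ Fin g) :
    tau g x j = x (finSumFinEquiv j) := rfl

theorem tau_cpr (i : Fin (g + g)) : tau g (cpr (b0 g) (b0 g i)) =
    Pi.single (finSumFinEquiv.symm i) 1 := by
  rw [cpr_basis]
  funext j
  rw [tau_apply]
  by_cases h : j = finSumFinEquiv.symm i
  · subst h
    rw [Equiv.apply_symm_apply, Pi.single_eq_same, Pi.single_eq_same]
  · rw [Pi.single_eq_of_ne h, Pi.single_eq_of_ne]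
    intro h'
    apply h
    rw [← h', Equiv.symm_apply_apply]

theorem bC_tau (β : (Fin g ⊕ Fin g → ℚ) →ₗ[ℚ] (Fin g ⊕ Fin g → ℚ) →ₗ[ℚ] ℚ)
    (x y : Fin (g + g) → ℂ) : bC β (tau g x) (tau g y) = om (b0 g) β x y := by
  have h1 : (bC β).compl₁₂ (tau g).toLinearMap (tau g).toLinearMap = om (b0 g) β := by
    refine bilin_ext (b0 g) fun i j => ?_
    rw [om_cpr, LinearMap.compl₁₂_apply]
    change bC β (tau g _) (tau g _) = _
    rw [tau_cpr, tau_cpr, bC_single, b0_apply, b0_apply]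
  exact congrArg (fun F => F x y) h1

theorem bC_om0 (x y : Fin g ⊕ Fin g → ℂ) : bC (om0 g) x y = ww (Om g ℂ) y x := by
  have h1 : bC (om0 g) = (wwL (Om g ℂ)).flip := by
    refine (Pi.basisFun ℂ (Fin g ⊕ Fin g)).ext fun i => (Pi.basisFun ℂ (Fin g ⊕ Fin g)).ext
      fun j => ?_
    rw [Pi.basisFun_apply, Pi.basisFun_apply, bC_single, LinearMap.flip_apply, wwL_apply,
      om0_apply]
    unfold ww
    rw [mulVec_single_one, mulVec_single_one, single_one_dotProduct, single_one_dotProduct,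
      ← Om_map ℂ]
    rfl
  rw [h1]
  rfl

end

end Pool.Agent.Q43.GH
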