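import Mathlib
import Pool.Agent.W437.HC.Cubic
import Pool.Agent.W437.HC.Hodge
import Pool.Agent.W437.HD.Rat
import Pool.Agent.H204R3.GP.MTDefs

/-!
# Tensors killed by the Hodge operator are Hodge tensors
-/

set_option autoImplicit false
set_option linter.unusedSectionVars false

namespace Pool.Agent.Q43.GH

open Matrix Module Pool.Agent.W437.HC Pool.Agent.W437.HD Pool.Agent.H204R3.GP

noncomputable section

variable {g : ℕ} {Z : Matrix (Fin g) (Fin g) ℂ}

/-- The rotation of a complex vector. -/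
def rotL (Z : Matrix (Fin g) (Fin g) ℂ) (θ : ℝ) :
    (Fin g ⊕ Fin g → ℂ) →ₗ[ℂ] (Fin g ⊕ Fin g → ℂ) :=
  (Complex.cos θ) • LinearMap.id + (Complex.sin θ) • (cm (JR Z)).mulVecLin

theorem rotL_apply (θ : ℝ) (x : Fin g ⊕ Fin g → ℂ) :
    rotL Z θ x = Complex.cos θ • x + Complex.sin θ • (cm (JR Z) *ᵥ x) := rfl

theorem rotL_eig (θ : ℝ) {x : Fin g ⊕ Fin g → ℂ} {s : ℤ} (hs : s = -1 ∨ s = 1)
    (hx : DZ Z *ᵥ x = (s : ℂ) • x) : rotL Z θ x = Complex.exp (θ * s * Complex.I) • x := by
  have h1 : cm (JR Z) *ᵥ x = (Complex.I * s) • x := by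
    have h2 : cm (JR Z) = Complex.I • DZ Z := by
      unfold DZ
      rw [smul_smul, mul_neg, Complex.I_mul_I, neg_neg, one_smul]
      rfl
    rw [h2, smul_mulVec, hx, smul_smul]
  rw [rotL_apply, h1, smul_smul, ← add_smul]
  congr 1
  rcases hs with h | h
  · subst h
    push_cast
    have h3 : (θ : ℂ) * -1 * Complex.I = -(θ : ℂ) * Complex.I := by ring
    rw [h3, Complex.exp_mul_I, Complex.cos_neg, Complex.sin_neg]
    ring
  · subst h
    push_cast
    have h3 : (θ : ℂ) * 1 * Complex.I = (θ : ℂ) * Complex.I := by ring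
    rw [h3, Complex.exp_mul_I]
    ring

/-- A multilinear map is given by its coefficients. -/
theorem evalM_coef {B κ K : Type*} [Fintype B] [DecidableEq B] [Fintype κ] [DecidableEq κ]
    [Field K] (F : MultilinearMap K (fun _ : κ => B → K) K) :
    evalM (fun I : κ → B => F (fun k => Pi.single (I k) 1)) = F := by
  refine Basis.ext_multilinear (fun _ => Pi.basisFun K B) fun I => ?_
  simp only [Pi.basisFun_apply]
  rw [evalM_apply, evalF_single]

/-- It is enough to test multilinear maps on a spanning set. -/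
theorem multi_ext {B κ K : Type*} [Fintype B] [DecidableEq B] [Fintype κ] [DecidableEq κ]
    [Field K] {F G : MultilinearMap K (fun _ : κ => B → K) K} {S : Set (B → K)}
    (hS : Submodule.span K S = ⊤) (h : ∀ x : κ → B → K, (∀ k, x k ∈ S) → F x = G x) : F = G := by
  have h1 : ∀ x, (F - G) x = 0 := by
    intro x
    rw [← evalM_coef (F - G), evalM_apply]
    refine evalF_span _ S hS (fun y hy => ?_) x
    rw [← evalM_apply, evalM_coef, _root_.sub_apply, h y hy, sub_self]
  refine MultilinearMap.ext fun x => ?_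
  have h2 := h1 x
  rw [_root_.sub_apply] at h2
  exact sub_eq_zero.1 h2

/-- The eigenvectors of the Hodge operator. -/
def eigS (Z : Matrix (Fin g) (Fin g) ℂ) : Set (Fin g ⊕ Fin g → ℂ) :=
  {x | ∃ s : ℤ, (s = -1 ∨ s = 1) ∧ DZ Z *ᵥ x = (s : ℂ) • x}

theorem span_eigS (hY : IsUnit (imM Z).det) : Submodule.span ℂ (eigS Z) = ⊤ := by
  rw [eq_top_iff]
  intro x _
  obtain ⟨u, v, huv, hu, hv⟩ := exists_eig hY x
  rw [huv]
  refine Submodule.add_mem _ (Submodule.subset_span ⟨-1, Or.inl rfl, ?_⟩)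
    (Submodule.subset_span ⟨1, Or.inr rfl, ?_⟩)
  · rw [hu]
    push_cast
    rw [neg_smul, one_smul]
  · rw [hv]
    push_cast
    rw [one_smul]

theorem evalF_rot (hY : IsUnit (imM Z).det) {κ : Type} [Fintype κ] [DecidableEq κ]
    {c : (κ → Fin g ⊕ Fin g) → ℚ} (hc : IsH (DZ Z) c) (θ : ℝ) (x : κ → Fin g ⊕ Fin g → ℂ) :
    evalF (cst ℂ c) (fun k => rotL Z θ (x k)) = evalF (cst ℂ c) x := by
  have h1 : (evalM (cst ℂ c)).compLinearMap (fun _ => rotL Z θ) = evalM (cst ℂ c) := by
    refine multi_ext (span_eigS hY) fun y hy => ?_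
    change evalF (cst ℂ c) (fun k => rotL Z θ (y k)) = evalF (cst ℂ c) y
    choose s hs1 hs2 using hy
    have h2 : (fun k => rotL Z θ (y k)) = fun k => Complex.exp (θ * s k * Complex.I) • y k := by
      funext k
      exact rotL_eig θ (hs1 k) (hs2 k)
    rw [h2]
    have h3 : evalF (cst ℂ c) (fun k => Complex.exp (θ * s k * Complex.I) • y k) =
        (∏ k, Complex.exp (θ * s k * Complex.I)) * evalF (cst ℂ c) y := by
      rw [← evalM_apply, MultilinearMap.map_smul_univ, smul_eq_mul, evalM_apply]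
    rw [h3]
    by_cases h0 : ∑ k, (s k : ℂ) = 0
    · rw [← Complex.exp_sum, ← Finset.sum_mul, ← Finset.mul_sum, h0, mul_zero, zero_mul,
        Complex.exp_zero, one_mul]
    · rw [evalF_eig hc (fun k => (s k : ℂ)) y hs2 h0, mul_zero]
  exact congrArg (fun F => F x) h1

/-- Tensors of odd degree are not killed by the Hodge operator. -/
theorem isH_odd (hY : IsUnit (imM Z).det) {κ : Type} [Fintype κ] [DecidableEq κ]
    (hκ : Odd (Fintype.card κ)) {c : (κ → Fin g ⊕ Fin g) → ℚ} (hc : IsH (DZ Z) c) : c = 0 := by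
  have h1 : ∀ x, evalF (cst ℂ c) x = 0 := by
    intro x
    refine evalF_span _ (eigS Z) (span_eigS hY) (fun y hy => ?_) x
    choose s hs1 hs2 using hy
    refine evalF_eig hc (fun k => (s k : ℂ)) y hs2 ?_
    have h2 : Odd (∑ k, s k) := by
      have h3 : ∑ k, s k = ∑ k : κ, (1 : ℤ) + ∑ k, (s k - 1) := by
        rw [← Finset.sum_add_distrib]
        exact Finset.sum_congr rfl fun k _ => by ring
      rw [h3]
      refine Odd.add_even ?_ ?_
      · rw [Finset.sum_const, Finset.card_univ, nsmul_eq_mul, mul_one]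
        exact_mod_cast hκ
      · refine Finset.even_sum _ fun k _ => ?_
        rcases hs1 k with h | h
        · rw [h]
          exact ⟨-1, by norm_num⟩
        · rw [h]
          exact ⟨0, by norm_num⟩
    intro h0
    have h3 : (∑ k, s k : ℤ) = 0 := by
      have h4 : ((∑ k, s k : ℤ) : ℂ) = 0 := by
        rw [Int.cast_sum]
        exact h0
      exact_mod_cast h4
    rw [h3] at h2
    exact absurd h2 (by decide)
  have h2 := eq_zero_of_evalF h1
  apply cst_injective (K := ℂ)
  rw [h2]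
  exact (cst_zero).symm

/-- The real period map as an equivalence. -/
theorem perR_bij (hY : IsUnit (imM Z).det) : Function.Bijective (perR Z) := by
  have hinj : Function.Injective (perR Z) := by
    rw [injective_iff_map_eq_zero]
    intro x hx
    have h1 : ∀ i, (imM Z *ᵥ (fun k => x (Sum.inr k))) i = 0 := fun i => by
      rw [← perR_im, hx]
      rfl
    have h2 : (fun k => x (Sum.inr k)) = 0 := by
      have h3 : imM Z *ᵥ (fun k => x (Sum.inr k)) = 0 := funext h1
      have h4 : (imM Z)⁻¹ *ᵥ (imM Z *ᵥ (fun k => x (Sum.inr k))) = 0 := by rw [h3, mulVec_zero]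
      rwa [mulVec_mulVec, nonsing_inv_mul _ hY, one_mulVec] at h4
    funext i
    rcases i with i | i
    · have h3 := perR_re Z x i
      rw [hx, h2, mulVec_zero] at h3
      simpa using h3.symm
    · exact congrFun h2 i
  refine ⟨hinj, ?_⟩
  have h1 : finrank ℝ (Fin g ⊕ Fin g → ℝ) = finrank ℝ (Fin g → ℂ) := by
    rw [finrank_fintype_fun_eq_card, Fintype.card_sum, Fintype.card_fin,
      ← finrank_mul_finrank ℝ ℂ (Fin g → ℂ), Complex.finrank_real_complex,
      finrank_fintype_fun_eq_card, Fintype.card_fin]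
    ring
  exact (LinearMap.injective_iff_surjective_of_finrank_eq_finrank h1).1 hinj

/-- The real period map as an equivalence. -/
def perE (hY : IsUnit (imM Z).det) : (Fin g ⊕ Fin g → ℝ) ≃ₗ[ℝ] (Fin g → ℂ) :=
  LinearEquiv.ofBijective (perR Z) (perR_bij hY)

theorem perE_symm_perOne (hY : IsUnit (imM Z).det) (w : Fin g ⊕ Fin g → ℚ) :
    (perE hY).symm (perOne Z w) = fun i => ((w i : ℚ) : ℝ) := by
  rw [LinearEquiv.symm_apply_eq, perOne_eq]
  rfl

theorem perE_symm_smul (hY : IsUnit (imM Z).det) (θ : ℝ) (u : Fin g → ℂ) :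
    (perE hY).symm ((Complex.cos θ + Complex.sin θ * Complex.I) • u) =
      Real.cos θ • (perE hY).symm u + Real.sin θ • (JR Z *ᵥ (perE hY).symm u) := by
  rw [LinearEquiv.symm_apply_eq]
  change _ = perR Z _
  rw [perR_rotate Z hY]
  congr 1
  exact ((perE hY).apply_symm_apply u).symm

theorem exists_angle (z : ℂ) (hz : ‖z‖ = 1) :
    ∃ θ : ℝ, z = Complex.cos θ + Complex.sin θ * Complex.I := by
  refine ⟨Complex.arg z, ?_⟩
  rw [← Complex.exp_mul_I]
  have h1 := Complex.norm_mul_exp_arg_mul_I z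
  rw [hz, Complex.ofReal_one, one_mul] at h1
  exact h1.symm

theorem evalF_ofReal {B κ : Type} [Fintype B] [DecidableEq B] [Fintype κ] [DecidableEq κ]
    (c : (κ → B) → ℚ) (x : κ → B → ℝ) :
    ((evalF (cst ℝ c) x : ℝ) : ℂ) = evalF (cst ℂ c) (fun k i => ((x k i : ℝ) : ℂ)) := by
  unfold evalF cst
  push_cast
  rfl

theorem evalF_ofRat {B κ : Type} [Fintype B] [DecidableEq B] [Fintype κ] [DecidableEq κ]
    (K : Type) [Field K] [CharZero K] (c : (κ → B) → ℚ) (x : κ → B → ℚ) :
    ((evalF c x : ℚ) : K) = evalF (cst K c) (fun k i => ((x k i : ℚ) : K)) := by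
  unfold evalF cst
  push_cast
  rfl

/-- **Tensors killed by the Hodge operator are Hodge tensors.** -/
theorem isHodgeTensor_evalM (hY : IsUnit (imM Z).det) {κ : Type} [Fintype κ] [DecidableEq κ]
    {c : (κ → Fin g ⊕ Fin g) → ℚ} (hc : IsH (DZ Z) c) :
    IsHodgeTensor (perOne Z) (evalM c) := by
  refine ⟨(evalM (cst ℝ c)).compLinearMap (fun _ => (perE hY).symm.toLinearMap), fun v => ?_,
    fun z hz u => ?_⟩
  · change evalF (cst ℝ c) (fun k => (perE hY).symm (perOne Z (v k))) = ((evalF c v : ℚ) : ℝ)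
    rw [evalF_ofRat ℝ]
    congr 1
    funext k
    exact perE_symm_perOne hY (v k)
  · change evalF (cst ℝ c) (fun k => (perE hY).symm (z • u k)) =
      evalF (cst ℝ c) (fun k => (perE hY).symm (u k))
    obtain ⟨θ, rfl⟩ := exists_angle z hz
    apply Complex.ofReal_injective
    rw [evalF_ofReal, evalF_ofReal]
    rw [← evalF_rot hY hc θ (fun k i => (((perE hY).symm (u k) i : ℝ) : ℂ))]
    congr 1
    funext k i
    rw [perE_symm_smul, rotL_apply]
    simp only [Pi.add_apply, Pi.smul_apply, smul_eq_mul, Complex.ofReal_add,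
      Complex.ofReal_mul, Complex.ofReal_cos, Complex.ofReal_sin]
    congr 2
    simp only [mulVec, dotProduct, cm, Matrix.map_apply]
    push_cast
    rfl

end

end Pool.Agent.Q43.GH
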